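import Pool.Agent.Helper83.SU.St

set_option autoImplicit false

namespace Pool.Agent.Helper67.SU

open Pool.Agent.Helper83.SU Pool.Agent.Helper83.CK Cardinal Set

universe u

theorem mSL : StKU.{u} → StSL.{u} := by
  intro hKU k τ hk hkτ h2 hN
  have h1 := hKU k τ.out (Set.univ : Set (Set τ.out)) hk (by rwa [Cardinal.mk_out])
    (by rwa [Cardinal.mk_out]) (by
      intro B hB
      refine lt_of_le_of_lt ?_ (h2 _ hB)
      rw [← Cardinal.mk_powerset]
      apply Cardinal.mk_le_mk_of_subset
      rintro _ ⟨X, -, rfl⟩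
      exact Set.inter_subset_right)
  rw [Cardinal.mk_univ, Cardinal.mk_set, Cardinal.mk_out] at h1
  exact h1

end Pool.Agent.Helper67.SU
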